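import Pool.Agent.Q99.HT.Stm1
import Pool.Agent.Q280.FAL.NB
import Pool.Agent.Q151.FAL.MAX

/-!
# HT-TG and HT-TG5: Gaussian bound of a product of brackets
-/

set_option autoImplicit false

namespace Pool.Agent.Q166.HT

open Finset Filter Topology
open Pool.Agent.W719.BS (D LL)
open Pool.Agent.Q99.FAL (bq hh S_T1)
open Pool.Agent.Q99.HT
open Pool.Agent.Q280.FAL (lt lc bq_nonneg bq_left_le)

open Classical in
/-- the quadratic part of a bracket -/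
noncomputable def qd (N : ℕ) (x : ℝ) (n k : ℤ) : ℝ :=
  if x = 0 then 0 else ((k : ℝ) - N * x) ^ 2 + ((n : ℝ) - N / 2) ^ 2

lemma qd_nonneg (N : ℕ) (x : ℝ) (n k : ℤ) : 0 ≤ qd N x n k := by
  unfold qd
  split_ifs <;> positivity

/-- one bracket -/
lemma br (h1 : S_T1) (x : ℝ) (h0 : 0 ≤ x) (h2 : x < 1 / 2) : ∃ C κ : ℝ, 0 ≤ C ∧ 0 < κ ∧
    ∀ (N : ℕ) (n k : ℤ), 1 ≤ N → (x = 0 → k = 0) →
    bq N n k ≤ C * Real.exp (N * hh x - (lt x * (k - N * x) + lc x * (n - N / 2)) -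
      κ * qd N x n k / N) := by
  obtain ⟨C, κ, hC, hκ, h⟩ := Pool.Agent.Q280.FAL.one_angle h1 h0 h2.le
  refine ⟨C, κ, hC, hκ, fun N n k hN hk => ?_⟩
  have h3 := h N n k hN hk (fun h => absurd h h2.ne)
  have hb := bq_nonneg hN n k
  by_cases hx : x = 0
  · rw [if_neg (by simp [hx]), if_neg (by simp [hx]), one_mul] at h3
    unfold qd
    rw [if_pos hx]
    exact h3
  · rw [if_pos ⟨hx, h2.ne⟩, if_pos ⟨hx, h2.ne⟩] at h3
    unfold qd
    rw [if_neg hx]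
    refine le_trans ?_ h3
    have hs : (1 : ℝ) ≤ √(N : ℝ) := by
      apply Real.le_sqrt_of_sq_le
      rw [one_pow]
      exact_mod_cast hN
    exact le_mul_of_one_le_left hb hs

lemma hh_refl (x : ℝ) : hh (1 / 2 - x) = hh x := by
  unfold hh
  rw [show 1 / 2 - (1 / 2 - x) = x by ring]
  ring

lemma lt_refl' {x : ℝ} (h0 : 0 ≤ x) (h1 : x ≤ 1 / 2) : lt (1 / 2 - x) = -lt x := by
  rcases eq_or_lt_of_le h0 with h | h
  · rw [← h, sub_zero, Pool.Agent.Q280.FAL.lt_zero, Pool.Agent.Q280.FAL.lt_half, neg_zero]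
  rcases eq_or_lt_of_le h1 with h' | h'
  · rw [h', sub_self, Pool.Agent.Q280.FAL.lt_zero, Pool.Agent.Q280.FAL.lt_half, neg_zero]
  unfold lt
  rw [show Real.pi * (1 / 2 - x) = Real.pi / 2 - Real.pi * x by ring,
    Real.tan_pi_div_two_sub, Real.log_inv]

lemma lc_refl (x : ℝ) : lc (1 / 2 - x) = Real.log (Real.sin (Real.pi * x)) := by
  unfold lc
  rw [show Real.pi * (1 / 2 - x) = Real.pi / 2 - Real.pi * x by ring, Real.cos_pi_div_two_sub]

section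
variable {α : Fin 6 → ℝ}

lemma Fr.bounds (h : Fr α) : α 0 < 1 / 2 ∧ α 1 < 1 / 2 ∧ α 3 < 1 / 2 ∧ α 4 < 1 / 2 ∧
    α 0 + α 1 = 1 / 2 - α 2 ∧ α 3 + α 4 = 1 / 2 - α 5 ∧ α 2 ≤ 1 / 2 ∧ α 5 ≤ 1 / 2 := by
  have e0 := h.nn 0
  have e1 := h.nn 1
  have e3 := h.nn 3
  have e4 := h.nn 4
  have s1 := h.s1
  have s2 := h.s2
  have p2 := h.p2
  have p5 := h.p5
  refine ⟨?_, ?_, ?_, ?_, ?_, ?_, ?_, ?_⟩ <;> linarith

lemma tpos {x : ℝ} (h0 : 0 < x) (h1 : x < 1 / 2) : 0 < Real.tan (Real.pi * x) := by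
  have hpi := Real.pi_pos
  apply Real.tan_pos_of_pos_of_lt_pi_div_two (by positivity)
  nlinarith

lemma cpos {x : ℝ} (h0 : 0 ≤ x) (h1 : x < 1 / 2) : 0 < Real.cos (Real.pi * x) := by
  have hpi := Real.pi_pos
  exact Real.cos_pos_of_mem_Ioo ⟨by nlinarith, by nlinarith⟩

lemma spos {x : ℝ} (h0 : 0 < x) (h1 : x ≤ 1 / 2) : 0 < Real.sin (Real.pi * x) := by
  have hpi := Real.pi_pos
  exact Real.sin_pos_of_pos_of_lt_pi (by positivity) (by nlinarith)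

/-- the logarithms of the tangents -/
lemma lt_cr (h : Fr α) (h1 : α 1 ≠ 0) : lt (α 5) - lt (α 4) = lt (α 2) - lt (α 1) := by
  obtain ⟨b0, b1, b3, b4, b5, b6, b7, b8⟩ := Fr.bounds h
  have e0 := h.nn 0
  have e1 := h.nn 1
  have e3 := h.nn 3
  have e4 := h.nn 4
  have p1 : 0 < α 1 := lt_of_le_of_ne e1 (Ne.symm h1)
  have p4 : 0 < α 4 := lt_of_le_of_ne e4 (fun h' => h1 (h.z14.2 h'.symm))
  have t1 := tpos p1 b1
  have t4 := tpos p4 b4
  have t2 := tpos h.p2 (by linarith)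
  have t5 := tpos h.p5 (by linarith)
  have hc := congrArg Real.log (h.cr h1)
  rw [Real.log_mul t1.ne' t5.ne', Real.log_mul t2.ne' t4.ne'] at hc
  unfold lt
  linarith

/-- the coefficients of `n1` and `n2` agree -/
lemma lc_cr (h : Fr α) : lc (α 3) + lc (α 1) + Real.log (Real.sin (Real.pi * α 2)) =
    lc (α 0) + lc (α 4) + Real.log (Real.sin (Real.pi * α 5)) := by
  obtain ⟨b0, b1, b3, b4, b5, b6, b7, b8⟩ := Fr.bounds h
  have e0 := h.nn 0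
  have e1 := h.nn 1
  have e3 := h.nn 3
  have e4 := h.nn 4
  have c0 := cpos e0 b0
  have c1 := cpos e1 b1
  have c3 := cpos e3 b3
  have c4 := cpos e4 b4
  have s2 := spos h.p2 b7
  have s5 := spos h.p5 b8
  have key : Real.cos (Real.pi * α 3) * Real.cos (Real.pi * α 1) * Real.sin (Real.pi * α 2) =
      Real.cos (Real.pi * α 0) * Real.cos (Real.pi * α 4) * Real.sin (Real.pi * α 5) := by
    have f0 : Real.cos (Real.pi * α 0) = Real.sin (Real.pi * α 1 + Real.pi * α 2) := by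
      rw [show α 0 = 1 / 2 - (α 1 + α 2) by linarith [h.s1],
        show Real.pi * (1 / 2 - (α 1 + α 2)) = Real.pi / 2 - (Real.pi * α 1 + Real.pi * α 2) by ring,
        Real.cos_pi_div_two_sub]
    have f3 : Real.cos (Real.pi * α 3) = Real.sin (Real.pi * α 4 + Real.pi * α 5) := by
      rw [show α 3 = 1 / 2 - (α 4 + α 5) by linarith [h.s2],
        show Real.pi * (1 / 2 - (α 4 + α 5)) = Real.pi / 2 - (Real.pi * α 4 + Real.pi * α 5) by ring,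
        Real.cos_pi_div_two_sub]
    rw [f0, f3]
    by_cases h1 : α 1 = 0
    · have h4 := h.z14.1 h1
      rw [h1, h4]
      simp
      ring
    · have p1 : 0 < α 1 := lt_of_le_of_ne e1 (Ne.symm h1)
      have p4 : 0 < α 4 := lt_of_le_of_ne e4 (fun h' => h1 (h.z14.2 h'.symm))
      have c2 := cpos h.p2.le (show α 2 < 1 / 2 by linarith)
      have c5 := cpos h.p5.le (show α 5 < 1 / 2 by linarith)
      have hc := h.cr h1
      rw [Real.tan_eq_sin_div_cos, Real.tan_eq_sin_div_cos, Real.tan_eq_sin_div_cos,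
        Real.tan_eq_sin_div_cos] at hc
      rw [Real.sin_add, Real.sin_add]
      rw [div_mul_div_comm, div_mul_div_comm, div_eq_div_iff (mul_pos c1 c5).ne'
        (mul_pos c2 c4).ne'] at hc
      linear_combination (-1 : ℝ) * hc
  have := congrArg Real.log key
  rw [Real.log_mul (mul_pos c3 c1).ne' s2.ne', Real.log_mul c3.ne' c1.ne',
    Real.log_mul (mul_pos c0 c4).ne' s5.ne', Real.log_mul c0.ne' c4.ne'] at this
  exact this

/-- the linear parts add up -/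
lemma lin (h : Fr α) (N n1 n2 A b C j : ℕ) (hN : n1 + n2 + 1 = N) (hj : j ≤ b)
    (hC : Cmp α A b C) :
    N * hh (α 0) + N * hh (α 3) + N * hh (α 1) + N * hh (α 4) + N * hh (α 0 + α 1) +
      N * hh (α 3 + α 4) -
      ((lt (α 0) * ((A : ℝ) - N * α 0) + lc (α 0) * ((n2 : ℝ) - N / 2)) +
        (lt (α 3) * ((C : ℝ) - N * α 3) + lc (α 3) * ((n1 : ℝ) - N / 2)) +
        (lt (α 1) * ((j : ℝ) - N * α 1) + lc (α 1) * ((n1 : ℝ) - N / 2)) +
        (lt (α 4) * (((b : ℝ) - j) - N * α 4) + lc (α 4) * ((n2 : ℝ) - N / 2)) +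
        (lt (α 0 + α 1) * (((A : ℝ) + j) - N * (α 0 + α 1)) +
          lc (α 0 + α 1) * ((n1 : ℝ) - N / 2)) +
        (lt (α 3 + α 4) * (((C : ℝ) + ((b : ℝ) - j)) - N * (α 3 + α 4)) +
          lc (α 3 + α 4) * ((n2 : ℝ) - N / 2))) =
    eX N α A b C + (lc (α 3) + lc (α 1) + Real.log (Real.sin (Real.pi * α 2))) := by
  obtain ⟨b0, b1, b3, b4, b5, b6, b7, b8⟩ := Fr.bounds h
  have e0 := h.nn 0
  have e1 := h.nn 1
  have e3 := h.nn 3
  have e4 := h.nn 4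
  have p2 := h.p2
  have p5 := h.p5
  have hn : (n1 : ℝ) + n2 + 1 = N := by exact_mod_cast hN
  have ec := lc_cr h
  have eA : ml α 0 * ((A : ℝ) - N * α 0) = (lt (α 2) - lt (α 0)) * ((A : ℝ) - N * α 0) := by
    by_cases h0 : α 0 = 0
    · rw [hC.1 h0, h0]
      simp
    · have p0 : 0 < α 0 := lt_of_le_of_ne e0 (Ne.symm h0)
      have : ml α 0 = lt (α 2) - lt (α 0) := by
        show Real.log (Real.tan (Real.pi * α 2) / Real.tan (Real.pi * α 0)) = _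
        rw [Real.log_div (tpos p2 (by linarith)).ne' (tpos p0 b0).ne']
        rfl
      rw [this]
  have eC : ml α 2 * ((C : ℝ) - N * α 3) = (lt (α 5) - lt (α 3)) * ((C : ℝ) - N * α 3) := by
    by_cases h0 : α 3 = 0
    · rw [hC.2.2 h0, h0]
      simp
    · have p0 : 0 < α 3 := lt_of_le_of_ne e3 (Ne.symm h0)
      have : ml α 2 = lt (α 5) - lt (α 3) := by
        show Real.log (Real.tan (Real.pi * α 5) / Real.tan (Real.pi * α 3)) = _
        rw [Real.log_div (tpos p5 (by linarith)).ne' (tpos p0 b3).ne']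
        rfl
      rw [this]
  have eb : ml α 1 * ((b : ℝ) - N * (α 1 + α 4)) =
      (lt (α 2) - lt (α 1)) * ((b : ℝ) - N * (α 1 + α 4)) := by
    by_cases h0 : α 1 = 0
    · rw [hC.2.1 h0, h0, h.z14.1 h0]
      simp
    · have p0 : 0 < α 1 := lt_of_le_of_ne e1 (Ne.symm h0)
      have : ml α 1 = lt (α 2) - lt (α 1) := by
        show Real.log (Real.tan (Real.pi * α 2) / Real.tan (Real.pi * α 1)) = _
        rw [Real.log_div (tpos p2 (by linarith)).ne' (tpos p0 b1).ne']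
        rfl
      rw [this]
  have ej : (lt (α 2) - lt (α 1)) * ((j : ℝ) - N * α 1) +
      (lt (α 5) - lt (α 4)) * (((b : ℝ) - j) - N * α 4) =
      (lt (α 2) - lt (α 1)) * ((b : ℝ) - N * (α 1 + α 4)) := by
    by_cases h0 : α 1 = 0
    · have hb := hC.2.1 h0
      have hj0 : j = 0 := by omega
      rw [hb, hj0, h0, h.z14.1 h0]
      simp
    · rw [lt_cr h h0]
      ring
  rw [b5, b6, hh_refl, hh_refl, lt_refl' p2.le b7, lt_refl' p5.le b8, lc_refl, lc_refl]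
  have s1 : α 2 = 1 / 2 - α 0 - α 1 := by linarith [h.s1]
  have s2 : α 5 = 1 / 2 - α 3 - α 4 := by linarith [h.s2]
  unfold eX v0
  rw [Fin.sum_univ_six]
  linear_combination (-1 : ℝ) * eA - eC - eb + ej + ((n2 : ℝ) - N / 2) * ec -
    (lc (α 3) + lc (α 1) + Real.log (Real.sin (Real.pi * α 2))) * hn +
    lt (α 2) * N * s1 + lt (α 5) * N * s2

/-- the quadratic parts -/
lemma quad (h : Fr α) (N n1 n2 A b C j : ℕ) (hN : n1 + n2 + 1 = N) (hj : j ≤ b)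
    (hC : Cmp α A b C) :
    dX N α A b C n1 + ((j : ℝ) - N * α 1) ^ 2 ≤ 9 * (qd N (α 0) n2 A + qd N (α 3) n1 C +
      qd N (α 1) n1 j + qd N (α 4) n2 (b - j : ℕ) + qd N (α 0 + α 1) n1 (A + j : ℕ) +
      qd N (α 3 + α 4) n2 (C + (b - j) : ℕ)) + 2 := by
  have hn : (n1 : ℝ) + n2 + 1 = N := by exact_mod_cast hN
  have q0 := qd_nonneg N (α 0) n2 A
  have q3 := qd_nonneg N (α 3) n1 C
  have q1 := qd_nonneg N (α 1) n1 j
  have q4 := qd_nonneg N (α 4) n2 (b - j : ℕ)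
  have q5 := qd_nonneg N (α 0 + α 1) n1 (A + j : ℕ)
  have q6 := qd_nonneg N (α 3 + α 4) n2 (C + (b - j) : ℕ)
  set Q := qd N (α 0) n2 A + qd N (α 3) n1 C +
      qd N (α 1) n1 j + qd N (α 4) n2 (b - j : ℕ) + qd N (α 0 + α 1) n1 (A + j : ℕ) +
      qd N (α 3 + α 4) n2 (C + (b - j) : ℕ) with hQ
  have hbj : (((b - j : ℕ) : ℤ) : ℝ) = (b : ℝ) - j := by
    rw [Int.cast_natCast, Nat.cast_sub hj]
  have hA : ((A : ℝ) - N * α 0) ^ 2 ≤ Q := by
    by_cases h0 : α 0 = 0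
    · rw [hC.1 h0, h0]
      simp only [Nat.cast_zero, mul_zero, sub_zero]
      nlinarith
    · have : qd N (α 0) n2 A = ((A : ℝ) - N * α 0) ^ 2 + ((n2 : ℝ) - N / 2) ^ 2 := by
        unfold qd
        rw [if_neg h0]
        simp
      nlinarith [sq_nonneg ((n2 : ℝ) - N / 2)]
  have hCC : ((C : ℝ) - N * α 3) ^ 2 ≤ Q := by
    by_cases h0 : α 3 = 0
    · rw [hC.2.2 h0, h0]
      simp only [Nat.cast_zero, mul_zero, sub_zero]
      nlinarith
    · have : qd N (α 3) n1 C = ((C : ℝ) - N * α 3) ^ 2 + ((n1 : ℝ) - N / 2) ^ 2 := by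
        unfold qd
        rw [if_neg h0]
        simp
      nlinarith [sq_nonneg ((n1 : ℝ) - N / 2)]
  have hJ : ((j : ℝ) - N * α 1) ^ 2 ≤ Q := by
    by_cases h0 : α 1 = 0
    · have hb := hC.2.1 h0
      have hj0 : j = 0 := by omega
      rw [hj0, h0]
      simp only [Nat.cast_zero, mul_zero, sub_zero]
      nlinarith
    · have : qd N (α 1) n1 j = ((j : ℝ) - N * α 1) ^ 2 + ((n1 : ℝ) - N / 2) ^ 2 := by
        unfold qd
        rw [if_neg h0]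
        simp
      nlinarith [sq_nonneg ((n1 : ℝ) - N / 2)]
  have hB : (((b : ℝ) - j) - N * α 4) ^ 2 ≤ Q := by
    by_cases h0 : α 1 = 0
    · have hb := hC.2.1 h0
      have hj0 : j = 0 := by omega
      rw [hb, hj0, h.z14.1 h0]
      simp only [Nat.cast_zero, mul_zero, sub_zero]
      nlinarith
    · have h4 : α 4 ≠ 0 := fun h' => h0 (h.z14.2 h')
      have : qd N (α 4) n2 (b - j : ℕ) = (((b : ℝ) - j) - N * α 4) ^ 2 +
          ((n2 : ℝ) - N / 2) ^ 2 := by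
        unfold qd
        rw [if_neg h4, hbj]
        simp
      nlinarith [sq_nonneg ((n2 : ℝ) - N / 2)]
  have hb2 : ((b : ℝ) - N * (α 1 + α 4)) ^ 2 ≤ 4 * Q := by
    nlinarith [sq_nonneg (((j : ℝ) - N * α 1) - (((b : ℝ) - j) - N * α 4))]
  have hn2 : (((n1 : ℝ)) - N / 2) ^ 2 ≤ 2 * Q + 2 := by
    have hQ0 : 0 ≤ Q := by rw [hQ]; linarith
    have c1 : (((n1 : ℝ)) - N / 2) ^ 2 ≤ 2 * ((n2 : ℝ) - N / 2) ^ 2 + 2 := by
      have : (n1 : ℝ) - N / 2 = -(((n2 : ℝ)) - N / 2) - 1 := by linarith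
      rw [this]
      nlinarith [sq_nonneg ((((n2 : ℝ)) - N / 2) - 1)]
    by_cases h0 : α 0 = 0
    · by_cases h3 : α 3 = 0
      · have h1 : α 1 ≠ 0 := fun h' => h.nd ⟨h0, h', h3⟩
        have : qd N (α 1) n1 j = ((j : ℝ) - N * α 1) ^ 2 + ((n1 : ℝ) - N / 2) ^ 2 := by
          unfold qd
          rw [if_neg h1]
          simp
        nlinarith [sq_nonneg ((j : ℝ) - N * α 1)]
      · have : qd N (α 3) n1 C = ((C : ℝ) - N * α 3) ^ 2 + ((n1 : ℝ) - N / 2) ^ 2 := by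
          unfold qd
          rw [if_neg h3]
          simp
        nlinarith [sq_nonneg ((C : ℝ) - N * α 3)]
    · have : qd N (α 0) n2 A = ((A : ℝ) - N * α 0) ^ 2 + ((n2 : ℝ) - N / 2) ^ 2 := by
        unfold qd
        rw [if_neg h0]
        simp
      nlinarith [sq_nonneg ((A : ℝ) - N * α 0)]
  unfold dX
  linarith

end

lemma fin6 (N κ k0 k3 k1 k4 k5 k6 Q0 Q3 Q1 Q4 Q5 Q6 E L x D : ℝ) (hN : 1 ≤ N) (hκ : 0 < κ)
    (l0 : κ ≤ k0) (l3 : κ ≤ k3) (l1 : κ ≤ k1) (l4 : κ ≤ k4) (l5 : κ ≤ k5) (l6 : κ ≤ k6)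
    (q0 : 0 ≤ Q0) (q3 : 0 ≤ Q3) (q1 : 0 ≤ Q1) (q4 : 0 ≤ Q4) (q5 : 0 ≤ Q5) (q6 : 0 ≤ Q6)
    (hx : x = E + L - (k0 * Q0 + k3 * Q3 + k1 * Q1 + k4 * Q4 + k5 * Q5 + k6 * Q6) / N)
    (hD : D ≤ 9 * (Q0 + Q3 + Q1 + Q4 + Q5 + Q6) + 2) :
    x ≤ (|L| + κ) + (E - κ / 9 * D / N) := by
  have hN0 : 0 < N := by linarith
  have y0 := mul_le_mul_of_nonneg_right l0 q0
  have y3 := mul_le_mul_of_nonneg_right l3 q3
  have y1 := mul_le_mul_of_nonneg_right l1 q1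
  have y4 := mul_le_mul_of_nonneg_right l4 q4
  have y5 := mul_le_mul_of_nonneg_right l5 q5
  have y6 := mul_le_mul_of_nonneg_right l6 q6
  have z1 := mul_le_mul_of_nonneg_left hD (show 0 ≤ κ / 9 by positivity)
  have z3 : κ * 1 ≤ κ * N := mul_le_mul_of_nonneg_left hN hκ.le
  have z4 : κ / 9 * D / N ≤ (k0 * Q0 + k3 * Q3 + k1 * Q1 + k4 * Q4 + k5 * Q5 + k6 * Q6) / N +
      κ := by
    rw [div_add' _ _ _ hN0.ne']
    apply div_le_div_of_nonneg_right _ hN0.le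
    linarith
  have y8 := le_abs_self L
  linarith

lemma fin5 (N c k3 k1 k4 k5 k6 Q3 Q1 Q4 Q5 Q6 E L x D F : ℝ) (hN : 0 < N) (hc : 0 < c)
    (l3 : 0 < k3) (l1 : 0 < k1) (l4 : 0 < k4) (l5 : 0 < k5) (l6 : 0 < k6)
    (q3 : 0 ≤ Q3) (q1 : 0 ≤ Q1) (q4 : 0 ≤ Q4) (q5 : 0 ≤ Q5) (q6 : 0 ≤ Q6)
    (hx : x = E + L - F - (k3 * Q3 + k1 * Q1 + k4 * Q4 + k5 * Q5 + k6 * Q6) / N)
    (hF : c * N ≤ F) (hD : D ≤ 5 * N ^ 2) :
    x ≤ |L| + (E - c / 5 * D / N) := by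
  have y0 : 0 ≤ (k3 * Q3 + k1 * Q1 + k4 * Q4 + k5 * Q5 + k6 * Q6) / N := by positivity
  have y7 : c / 5 * D / N ≤ c * N := by
    rw [div_le_iff₀ hN]
    have := mul_le_mul_of_nonneg_left hD (show 0 ≤ c / 5 by positivity)
    linarith
  have y8 := le_abs_self L
  linarith

theorem task_TG : S_TG := by
  intro h1 α h
  obtain ⟨b0, b1, b3, b4, b5, b6, b7, b8⟩ := Fr.bounds h
  have e0 := h.nn 0
  have e1 := h.nn 1
  have e3 := h.nn 3
  have e4 := h.nn 4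
  have p2 := h.p2
  have p5 := h.p5
  obtain ⟨c0, k0, hc0, hk0, g0⟩ := br h1 (α 0) e0 b0
  obtain ⟨c1, k1, hc1, hk1, g1⟩ := br h1 (α 1) e1 b1
  obtain ⟨c3, k3, hc3, hk3, g3⟩ := br h1 (α 3) e3 b3
  obtain ⟨c4, k4, hc4, hk4, g4⟩ := br h1 (α 4) e4 b4
  obtain ⟨c5, k5, hc5, hk5, g5⟩ := br h1 (α 0 + α 1) (by linarith) (by linarith)
  obtain ⟨c6, k6, hc6, hk6, g6⟩ := br h1 (α 3 + α 4) (by linarith) (by linarith)
  obtain ⟨κ, hκ, l0, l1, l3, l4, l5, l6⟩ : ∃ κ : ℝ, 0 < κ ∧ κ ≤ k0 ∧ κ ≤ k1 ∧ κ ≤ k3 ∧ κ ≤ k4 ∧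
      κ ≤ k5 ∧ κ ≤ k6 := by
    refine ⟨min k0 (min k1 (min k3 (min k4 (min k5 k6)))), ?_, ?_, ?_, ?_, ?_, ?_, ?_⟩
    · simp only [lt_min_iff]
      exact ⟨hk0, hk1, hk3, hk4, hk5, hk6⟩
    all_goals simp
  set L : ℝ := lc (α 3) + lc (α 1) + Real.log (Real.sin (Real.pi * α 2)) with hL
  refine ⟨c0 * c3 * c1 * c4 * c5 * c6 * Real.exp (|L| + κ), κ / 9, by positivity, ?_⟩
  intro N n1 n2 A b C j hN hj hC
  have hN1 : 1 ≤ N := by omega
  have hN0 : (0 : ℝ) < N := by exact_mod_cast hN1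
  have hN1' : (1 : ℝ) ≤ N := by exact_mod_cast hN1
  have f0 := g0 N n2 A hN1 (fun h' => by rw [hC.1 h']; rfl)
  have f3 := g3 N n1 C hN1 (fun h' => by rw [hC.2.2 h']; rfl)
  have f1 := g1 N n1 j hN1 (fun h' => by
    have := hC.2.1 h'
    have : j = 0 := by omega
    rw [this]; rfl)
  have f4 := g4 N n2 (b - j : ℕ) hN1 (fun h' => by
    have := hC.2.1 (h.z14.2 h')
    have : b - j = 0 := by omega
    rw [this]; rfl)
  have f5 := g5 N n1 (A + j : ℕ) hN1 (fun h' => by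
    have h0 : α 0 = 0 := by linarith
    have h1 : α 1 = 0 := by linarith
    have := hC.2.1 h1
    have := hC.1 h0
    have : A + j = 0 := by omega
    rw [this]; rfl)
  have f6 := g6 N n2 (C + (b - j) : ℕ) hN1 (fun h' => by
    have h0 : α 3 = 0 := by linarith
    have h1 : α 4 = 0 := by linarith
    have := hC.2.1 (h.z14.2 h1)
    have := hC.2.2 h0
    have : C + (b - j) = 0 := by omega
    rw [this]; rfl)
  have hlin := lin h N n1 n2 A b C j hN hj hC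
  have hquad := quad h N n1 n2 A b C j hN hj hC
  rw [← hL] at hlin
  have q0 := qd_nonneg N (α 0) n2 A
  have q3 := qd_nonneg N (α 3) n1 C
  have q1 := qd_nonneg N (α 1) n1 j
  have q4 := qd_nonneg N (α 4) n2 (b - j : ℕ)
  have q5 := qd_nonneg N (α 0 + α 1) n1 (A + j : ℕ)
  have q6 := qd_nonneg N (α 3 + α 4) n2 (C + (b - j) : ℕ)
  have n0 := bq_nonneg hN1 n2 A
  have n3 := bq_nonneg hN1 n1 C
  have n1' := bq_nonneg hN1 n1 j
  have n4 := bq_nonneg hN1 n2 (b - j : ℕ)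
  have n5 := bq_nonneg hN1 n1 (A + j : ℕ)
  have n6 := bq_nonneg hN1 n2 (C + (b - j) : ℕ)
  obtain ⟨x0, hx0, f0⟩ : ∃ x0 : ℝ, x0 = _ ∧ bq N n2 A ≤ c0 * Real.exp x0 := ⟨_, rfl, f0⟩
  obtain ⟨x3, hx3, f3⟩ : ∃ x3 : ℝ, x3 = _ ∧ bq N n1 C ≤ c3 * Real.exp x3 := ⟨_, rfl, f3⟩
  obtain ⟨x1, hx1, f1⟩ : ∃ x1 : ℝ, x1 = _ ∧ bq N n1 j ≤ c1 * Real.exp x1 := ⟨_, rfl, f1⟩
  obtain ⟨x4, hx4, f4⟩ : ∃ x4 : ℝ, x4 = _ ∧ bq N n2 (b - j : ℕ) ≤ c4 * Real.exp x4 :=
    ⟨_, rfl, f4⟩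
  obtain ⟨x5, hx5, f5⟩ : ∃ x5 : ℝ, x5 = _ ∧ bq N n1 (A + j : ℕ) ≤ c5 * Real.exp x5 :=
    ⟨_, rfl, f5⟩
  obtain ⟨x6, hx6, f6⟩ : ∃ x6 : ℝ, x6 = _ ∧ bq N n2 (C + (b - j) : ℕ) ≤ c6 * Real.exp x6 :=
    ⟨_, rfl, f6⟩
  have hbj : (((b - j : ℕ) : ℤ) : ℝ) = (b : ℝ) - j := by rw [Int.cast_natCast, Nat.cast_sub hj]
  have hAj : (((A + j : ℕ) : ℤ) : ℝ) = (A : ℝ) + j := by push_cast; ring
  have hCj : (((C + (b - j) : ℕ) : ℤ) : ℝ) = (C : ℝ) + ((b : ℝ) - j) := by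
    rw [Int.cast_natCast, Nat.cast_add, Nat.cast_sub hj]
  rw [Int.cast_natCast, Int.cast_natCast] at hx0 hx1 hx3
  rw [hbj, Int.cast_natCast] at hx4
  rw [hAj, Int.cast_natCast] at hx5
  rw [hCj, Int.cast_natCast] at hx6
  have hxs : x0 + x3 + x1 + x4 + x5 + x6 ≤ (|L| + κ) + (eX N α A b C -
      κ / 9 * (dX N α A b C n1 + ((j : ℝ) - N * α 1) ^ 2) / N) := by
    refine fin6 N κ k0 k3 k1 k4 k5 k6 _ _ _ _ _ _ (eX N α A b C) L _ _ hN1' hκ l0 l3 l1 l4 l5 l6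
      q0 q3 q1 q4 q5 q6 ?_ hquad
    rw [hx0, hx1, hx3, hx4, hx5, hx6]
    linear_combination hlin
  calc bq N n2 A * bq N n1 C * (bq N n1 j * bq N n2 (b - j : ℕ)) *
      (bq N n1 (A + j : ℕ) * bq N n2 (C + (b - j) : ℕ)) ≤
      (c0 * Real.exp x0) * (c3 * Real.exp x3) * ((c1 * Real.exp x1) * (c4 * Real.exp x4)) *
        ((c5 * Real.exp x5) * (c6 * Real.exp x6)) := by gcongr
    _ = (c0 * c3 * c1 * c4 * c5 * c6) * Real.exp (x0 + x3 + x1 + x4 + x5 + x6) := by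
      simp only [Real.exp_add]
      ring
    _ ≤ (c0 * c3 * c1 * c4 * c5 * c6) * Real.exp ((|L| + κ) + (eX N α A b C -
      κ / 9 * (dX N α A b C n1 + ((j : ℝ) - N * α 1) ^ 2) / N)) := by
      apply mul_le_mul_of_nonneg_left (Real.exp_le_exp.2 hxs) (by positivity)
    _ = _ := by
      rw [Real.exp_add]
      ring

/-! ### TG5 -/

lemma one_var {x : ℝ} (h0 : 0 < x) (h1 : x ≤ 1 / 4) : x ≤ hh x + x * lt x := by
  have hpi := Real.pi_pos
  let G : ℝ → ℝ := fun t => hh t + t * lt t - t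
  have hder : ∀ t : ℝ, 0 < t → t < 1 / 2 → HasDerivAt G
      (t * (Real.pi / (Real.sin (Real.pi * t) * Real.cos (Real.pi * t))) - 1) t := by
    intro t ht0 ht1
    have s1 := spos ht0 ht1.le
    have c1 := cpos ht0.le ht1
    have d1 := Pool.Agent.Q99.FAL.MX.hh_der ht0 ht1
    have d2 : HasDerivAt (fun y : ℝ => Real.pi * y) Real.pi t := by
      simpa using (hasDerivAt_id t).const_mul Real.pi
    have d3 : HasDerivAt (fun y : ℝ => Real.tan (Real.pi * y))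
        (1 / Real.cos (Real.pi * t) ^ 2 * Real.pi) t := (Real.hasDerivAt_tan c1.ne').comp t d2
    have d4 : HasDerivAt lt ((1 / Real.cos (Real.pi * t) ^ 2 * Real.pi) /
        Real.tan (Real.pi * t)) t := d3.log (tpos ht0 ht1).ne'
    have d5 := ((d1.add ((hasDerivAt_id t).mul d4)).sub (hasDerivAt_id t))
    have e6 : t * (Real.pi / (Real.sin (Real.pi * t) * Real.cos (Real.pi * t))) - 1 =
        -Real.log (Real.tan (Real.pi * t)) + (1 * lt t + t * ((1 / Real.cos (Real.pi * t) ^ 2 *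
          Real.pi) / Real.tan (Real.pi * t))) - 1 := by
      unfold lt
      rw [Real.tan_eq_sin_div_cos]
      field_simp
      ring
    rw [e6]
    exact d5
  have hmono : ∀ δ : ℝ, 0 < δ → δ ≤ x → G δ ≤ G x := by
    intro δ hδ0 hδ1
    have hm : MonotoneOn G (Set.Icc δ x) := by
      apply monotoneOn_of_deriv_nonneg (convex_Icc δ x)
      · intro t ht
        exact (hder t (by linarith [ht.1]) (by linarith [ht.2])).continuousAt.continuousWithinAt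
      · intro t ht
        rw [interior_Icc] at ht
        exact (hder t (by linarith [ht.1]) (by linarith [ht.2])).differentiableAt.differentiableWithinAt
      · intro t ht
        rw [interior_Icc] at ht
        have ht0 : 0 < t := by linarith [ht.1]
        have ht1 : t < 1 / 2 := by linarith [ht.2]
        rw [(hder t ht0 ht1).deriv]
        have s1 := spos ht0 ht1.le
        have c1 := cpos ht0.le ht1
        have u1 : Real.sin (Real.pi * t) ≤ Real.pi * t := Real.sin_le (by positivity)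
        have u2 := Real.cos_le_one (Real.pi * t)
        rw [sub_nonneg, ← mul_div_assoc, le_div_iff₀ (by positivity), one_mul]
        nlinarith
    exact hm ⟨le_rfl, hδ1⟩ ⟨hδ1, le_rfl⟩ hδ1
  let H : ℝ → ℝ := fun δ => hh δ + (Real.pi * δ * Real.log (Real.pi * δ)) / Real.pi - δ
  have hH : Continuous H := by
    have c1 := Pool.Agent.Q99.FAL.MX.hh_cont
    have c2 : Continuous (fun δ : ℝ => Real.pi * δ * Real.log (Real.pi * δ)) :=
      Real.continuous_mul_log.comp (continuous_const.mul continuous_id)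
    exact (c1.add (c2.div_const _)).sub continuous_id
  have hH0 : H 0 = 0 := by
    show hh 0 + (Real.pi * 0 * Real.log (Real.pi * 0)) / Real.pi - 0 = 0
    rw [Pool.Agent.Q99.FAL.MX.hh_zero]
    simp
  have hHG : ∀ δ : ℝ, 0 < δ → δ ≤ x → H δ ≤ G x := by
    intro δ hδ0 hδ1
    refine le_trans ?_ (hmono δ hδ0 hδ1)
    show hh δ + (Real.pi * δ * Real.log (Real.pi * δ)) / Real.pi - δ ≤ hh δ + δ * lt δ - δ
    have e1 : (Real.pi * δ * Real.log (Real.pi * δ)) / Real.pi = δ * Real.log (Real.pi * δ) := by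
      field_simp
    rw [e1]
    have e2 : Real.log (Real.pi * δ) ≤ lt δ := by
      unfold lt
      apply Real.log_le_log (by positivity)
      exact Real.le_tan (by positivity) (by nlinarith)
    nlinarith
  have hlim : Tendsto H (𝓝[>] 0) (𝓝 0) := by
    have := hH.tendsto 0
    rw [hH0] at this
    exact this.mono_left nhdsWithin_le_nhds
  have hfin : 0 ≤ G x := by
    apply le_of_tendsto hlim
    have : Set.Ioc 0 x ∈ 𝓝[>] (0 : ℝ) := Ioc_mem_nhdsGT h0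
    filter_upwards [this] with δ hδ
    exact hHG δ hδ.1 hδ.2
  have : G x = hh x + x * lt x - x := rfl
  linarith

lemma gain {x : ℝ} (h0 : 0 < x) (h1 : x ≤ 1 / 4) : 0 < hh x + x * lt x + 1 / 2 * lc x := by
  have hpi := Real.pi_pos
  have hpi2 := Real.pi_lt_d2
  have h2 := one_var h0 h1
  have c1 := cpos h0.le (show x < 1 / 2 by linarith)
  have h3 : 1 - (Real.cos (Real.pi * x))⁻¹ ≤ lc x := Real.one_sub_inv_le_log_of_pos c1
  have h4 := Real.one_sub_sq_div_two_le_cos (x := Real.pi * x)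
  have h5 : (Real.cos (Real.pi * x))⁻¹ < 1 + 2 * x := by
    rw [inv_lt_iff_one_lt_mul₀ c1]
    have h6 : (Real.pi * x) ^ 2 ≤ 3.15 ^ 2 * x ^ 2 := by
      rw [mul_pow]
      apply mul_le_mul_of_nonneg_right _ (sq_nonneg _)
      exact pow_le_pow_left₀ hpi.le hpi2.le 2
    nlinarith [mul_pos h0 h0, mul_pos (mul_pos h0 h0) h0]
  linarith

lemma sqb {N u a : ℝ} (hN : 0 < N) (u0 : 0 ≤ u) (u1 : u ≤ N) (a0 : 0 ≤ a) (a1 : a ≤ 1) :
    (u - N * a) ^ 2 ≤ N ^ 2 := by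
  have w1 : 0 ≤ N * a := by positivity
  have w2 : N * a ≤ N := by nlinarith
  apply sq_le_sq'
  · linarith
  · linarith

lemma lt_nonpos {x : ℝ} (h0 : 0 < x) (h1 : x ≤ 1 / 4) : lt x ≤ 0 := by
  unfold lt
  have hpi := Real.pi_pos
  have e1 : 0 < Real.pi * x := mul_pos hpi h0
  have e2 : Real.pi * x ≤ Real.pi / 4 := by
    have := mul_le_mul_of_nonneg_left h1 hpi.le
    linarith
  apply Real.log_nonpos (tpos h0 (by linarith)).le
  rw [← Real.tan_pi_div_four]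
  apply Real.strictMonoOn_tan.monotoneOn
  · exact ⟨by linarith, by linarith⟩
  · exact ⟨by linarith, by linarith⟩
  · exact e2

theorem task_TG5 : S_TG5 := by
  intro h1 α h ha
  obtain ⟨b0, b1, b3, b4, b5, b6, b7, b8⟩ := Fr.bounds h
  have e0 := h.nn 0
  have e1 := h.nn 1
  have e3 := h.nn 3
  have e4 := h.nn 4
  have p2 := h.p2
  have p5 := h.p5
  by_cases hα0 : α 0 = 0
  · refine ⟨1, 1, one_pos, ?_⟩
    intro N n1 n2 A b C j hN hj hs hC hA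
    have := hC.1 hα0
    omega
  have pα : 0 < α 0 := lt_of_le_of_ne e0 (Ne.symm hα0)
  have hg := gain pα ha.q0
  set c : ℝ := hh (α 0) + α 0 * lt (α 0) + 1 / 2 * lc (α 0) with hc
  obtain ⟨c1, k1, hc1, hk1, g1⟩ := br h1 (α 1) e1 b1
  obtain ⟨c3, k3, hc3, hk3, g3⟩ := br h1 (α 3) e3 b3
  obtain ⟨c4, k4, hc4, hk4, g4⟩ := br h1 (α 4) e4 b4
  obtain ⟨c5, k5, hc5, hk5, g5⟩ := br h1 (α 0 + α 1) (by linarith) (by linarith)
  obtain ⟨c6, k6, hc6, hk6, g6⟩ := br h1 (α 3 + α 4) (by linarith) (by linarith)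
  set L : ℝ := lc (α 3) + lc (α 1) + Real.log (Real.sin (Real.pi * α 2)) with hL
  refine ⟨c3 * c1 * c4 * c5 * c6 * Real.exp |L|, c / 5, by positivity, ?_⟩
  intro N n1 n2 A b C j hN hj hs hC hA
  have hN1 : 1 ≤ N := by omega
  have hN0 : (0 : ℝ) < N := by exact_mod_cast hN1
  have f3 := g3 N n1 C hN1 (fun h' => by rw [hC.2.2 h']; rfl)
  have f1 := g1 N n1 j hN1 (fun h' => by
    have := hC.2.1 h'
    have : j = 0 := by omega
    rw [this]; rfl)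
  have f4 := g4 N n2 (b - j : ℕ) hN1 (fun h' => by
    have := hC.2.1 (h.z14.2 h')
    have : b - j = 0 := by omega
    rw [this]; rfl)
  have f5 := g5 N n1 (A + j : ℕ) hN1 (fun h' => by
    exfalso
    apply hα0
    linarith)
  have f6 := g6 N n2 (C + (b - j) : ℕ) hN1 (fun h' => by
    have h0 : α 3 = 0 := by linarith
    have h1 : α 4 = 0 := by linarith
    have := hC.2.1 (h.z14.2 h1)
    have := hC.2.2 h0
    have : C + (b - j) = 0 := by omega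
    rw [this]; rfl)
  have hlin := lin h N n1 n2 A b C j hN hj hC
  rw [← hL] at hlin
  have q3 := qd_nonneg N (α 3) n1 C
  have q1 := qd_nonneg N (α 1) n1 j
  have q4 := qd_nonneg N (α 4) n2 (b - j : ℕ)
  have q5 := qd_nonneg N (α 0 + α 1) n1 (A + j : ℕ)
  have q6 := qd_nonneg N (α 3 + α 4) n2 (C + (b - j) : ℕ)
  have n3 := bq_nonneg hN1 n1 C
  have n1' := bq_nonneg hN1 n1 j
  have n4 := bq_nonneg hN1 n2 (b - j : ℕ)
  have n5 := bq_nonneg hN1 n1 (A + j : ℕ)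
  have n6 := bq_nonneg hN1 n2 (C + (b - j) : ℕ)
  obtain ⟨x3, hx3, f3⟩ : ∃ x3 : ℝ, x3 = _ ∧ bq N n1 C ≤ c3 * Real.exp x3 := ⟨_, rfl, f3⟩
  obtain ⟨x1, hx1, f1⟩ : ∃ x1 : ℝ, x1 = _ ∧ bq N n1 j ≤ c1 * Real.exp x1 := ⟨_, rfl, f1⟩
  obtain ⟨x4, hx4, f4⟩ : ∃ x4 : ℝ, x4 = _ ∧ bq N n2 (b - j : ℕ) ≤ c4 * Real.exp x4 :=
    ⟨_, rfl, f4⟩
  obtain ⟨x5, hx5, f5⟩ : ∃ x5 : ℝ, x5 = _ ∧ bq N n1 (A + j : ℕ) ≤ c5 * Real.exp x5 :=
    ⟨_, rfl, f5⟩
  obtain ⟨x6, hx6, f6⟩ : ∃ x6 : ℝ, x6 = _ ∧ bq N n2 (C + (b - j) : ℕ) ≤ c6 * Real.exp x6 :=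
    ⟨_, rfl, f6⟩
  have hbj : (((b - j : ℕ) : ℤ) : ℝ) = (b : ℝ) - j := by rw [Int.cast_natCast, Nat.cast_sub hj]
  have hAj : (((A + j : ℕ) : ℤ) : ℝ) = (A : ℝ) + j := by push_cast; ring
  have hCj : (((C + (b - j) : ℕ) : ℤ) : ℝ) = (C : ℝ) + ((b : ℝ) - j) := by
    rw [Int.cast_natCast, Nat.cast_add, Nat.cast_sub hj]
  rw [Int.cast_natCast, Int.cast_natCast] at hx1 hx3
  rw [hbj, Int.cast_natCast] at hx4
  rw [hAj, Int.cast_natCast] at hx5
  rw [hCj, Int.cast_natCast] at hx6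
  -- the loss of the first bracket is compensated
  have hlt : lt (α 0) ≤ 0 := lt_nonpos pα ha.q0
  have hlc : lc (α 0) ≤ 0 := by
    unfold lc
    exact Real.log_nonpos (cpos e0 b0).le (Real.cos_le_one _)
  have hA0 : (0 : ℝ) ≤ A := Nat.cast_nonneg A
  have hn20 : (0 : ℝ) ≤ n2 := Nat.cast_nonneg n2
  have hf : c * N ≤ N * hh (α 0) - (lt (α 0) * ((A : ℝ) - N * α 0) +
      lc (α 0) * ((n2 : ℝ) - N / 2)) := by
    have w1 : lt (α 0) * A ≤ 0 := mul_nonpos_of_nonpos_of_nonneg hlt hA0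
    have w2 : lc (α 0) * n2 ≤ 0 := mul_nonpos_of_nonpos_of_nonneg hlc hn20
    have w3 : N * hh (α 0) - (lt (α 0) * ((A : ℝ) - N * α 0) +
      lc (α 0) * ((n2 : ℝ) - N / 2)) = c * N - lt (α 0) * A - lc (α 0) * n2 := by
      rw [hc]
      ring
    rw [w3]
    clear * - w1 w2
    linarith
  have hdX : dX N α A b C n1 + ((j : ℝ) - N * α 1) ^ 2 ≤ 5 * (N : ℝ) ^ 2 := by
    have v : ∀ u a : ℝ, 0 ≤ u → u ≤ N → 0 ≤ a → a ≤ 1 → (u - N * a) ^ 2 ≤ (N : ℝ) ^ 2 :=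
      fun u a u0 u1 a0 a1 => sqb hN0 u0 u1 a0 a1
    have w1 := v A (α 0) hA0 (by exact_mod_cast (by omega : A ≤ N)) e0 (by linarith)
    have w2 := v b (α 1 + α 4) (Nat.cast_nonneg b) (by exact_mod_cast (by omega : b ≤ N))
      (by linarith) (by linarith)
    have w3 := v C (α 3) (Nat.cast_nonneg C) (by exact_mod_cast (by omega : C ≤ N)) e3 (by linarith)
    have w4 := v n1 (1 / 2) (Nat.cast_nonneg n1) (by exact_mod_cast (by omega : n1 ≤ N))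
      (by norm_num) (by norm_num)
    have w5 := v j (α 1) (Nat.cast_nonneg j) (by exact_mod_cast (by omega : j ≤ N)) e1 (by linarith)
    rw [show (N : ℝ) * (1 / 2) = N / 2 by ring] at w4
    unfold dX
    linarith
  have hxs : x3 + x1 + x4 + x5 + x6 ≤ |L| + (eX N α A b C -
      c / 5 * (dX N α A b C n1 + ((j : ℝ) - N * α 1) ^ 2) / N) := by
    refine fin5 N c k3 k1 k4 k5 k6 _ _ _ _ _ (eX N α A b C) L _ _ (N * hh (α 0) -
      (lt (α 0) * ((A : ℝ) - N * α 0) + lc (α 0) * ((n2 : ℝ) - N / 2))) hN0 hg hk3 hk1 hk4 hk5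
      hk6 q3 q1 q4 q5 q6 ?_ hf hdX
    rw [hx1, hx3, hx4, hx5, hx6]
    linear_combination hlin
  calc bq N n1 C * (bq N n1 j * bq N n2 (b - j : ℕ)) *
      (bq N n1 (A + j : ℕ) * bq N n2 (C + (b - j) : ℕ)) ≤
      (c3 * Real.exp x3) * ((c1 * Real.exp x1) * (c4 * Real.exp x4)) *
        ((c5 * Real.exp x5) * (c6 * Real.exp x6)) := by gcongr
    _ = (c3 * c1 * c4 * c5 * c6) * Real.exp (x3 + x1 + x4 + x5 + x6) := by
      simp only [Real.exp_add]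
      ring
    _ ≤ (c3 * c1 * c4 * c5 * c6) * Real.exp (|L| + (eX N α A b C -
      c / 5 * (dX N α A b C n1 + ((j : ℝ) - N * α 1) ^ 2) / N)) := by
      apply mul_le_mul_of_nonneg_left (Real.exp_le_exp.2 hxs) (by positivity)
    _ = _ := by
      rw [Real.exp_add]
      ring

end Pool.Agent.Q166.HT
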